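import Pool.Agent.H20.RCC.Stmts

/-!
Row TW of the board `rcc`.
-/

set_option autoImplicit false

namespace Pool.RCC

namespace TW

theorem ofDigits_ad (s : List ℕ) : ∀ c : ℕ,
    Nat.ofDigits 10 (ad c s ++ [co c s]) = c + Nat.ofDigits 10 s := by
  induction s with
  | nil =>
    intro c
    simp [ad, co, Nat.ofDigits_cons]
  | cons a t ih =>
    intro c
    have h1 : ad c (a :: t) ++ [co c (a :: t)] =
        (a + c) % 10 :: (ad ((a + c) / 10) t ++ [co ((a + c) / 10) t]) := rfl
    rw [h1, Nat.ofDigits_cons, Nat.ofDigits_cons, ih]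
    have h2 := Nat.mod_add_div (a + c) 10
    omega

theorem ofDigits_zip : ∀ x y : List ℕ, x.length = y.length →
    Nat.ofDigits 10 (List.zipWith (· + ·) x y) = Nat.ofDigits 10 x + Nat.ofDigits 10 y := by
  intro x
  induction x with
  | nil =>
    intro y h
    cases y with
    | nil => rfl
    | cons b y => simp at h
  | cons a x ih =>
    intro y h
    cases y with
    | nil => simp at h
    | cons b y =>
      have h1 : x.length = y.length := by simpa using h
      rw [List.zipWith_cons_cons, Nat.ofDigits_cons, Nat.ofDigits_cons, Nat.ofDigits_cons,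
        ih y h1]
      ring

theorem mem_wd (c : ℕ → ℕ) : ∀ x ∈ wd c, 1 ≤ x ∧ x ≤ 9 := by
  intro x hx
  unfold wd at hx
  simp only [List.mem_append, List.mem_replicate] at hx
  omega

theorem mem_ad (s : List ℕ) : ∀ (c x : ℕ), x ∈ ad c s → x < 10 := by
  induction s with
  | nil =>
    intro c x hx
    simp [ad] at hx
  | cons a t ih =>
    intro c x hx
    rcases List.mem_cons.1 hx with h | h
    · rw [h]
      exact Nat.mod_lt _ (by norm_num)
    · exact ih _ x h

theorem co_le (s : List ℕ) : ∀ c : ℕ, c ≤ 1 → (∀ x ∈ s, x ≤ 18) → co c s ≤ 1 := by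
  induction s with
  | nil =>
    intro c hc _
    exact hc
  | cons a t ih =>
    intro c hc h
    have h1 := h a List.mem_cons_self
    exact ih _ (by omega) (fun x hx => h x (List.mem_cons_of_mem _ hx))

theorem mem_zip : ∀ x y : List ℕ, (∀ a ∈ x, a ≤ 9) → (∀ a ∈ y, a ≤ 9) →
    ∀ a ∈ List.zipWith (· + ·) x y, a ≤ 18 := by
  intro x
  induction x with
  | nil =>
    intro y _ _ a ha
    simp at ha
  | cons b x ih =>
    intro y h1 h2 a ha
    cases y with
    | nil => simp at ha
    | cons d y =>
      rw [List.zipWith_cons_cons] at ha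
      rcases List.mem_cons.1 ha with h | h
      · have h3 := h1 b List.mem_cons_self
        have h4 := h2 d List.mem_cons_self
        omega
      · exact ih y (fun z hz => h1 z (List.mem_cons_of_mem _ hz))
          (fun z hz => h2 z (List.mem_cons_of_mem _ hz)) a h

end TW

open TW in
theorem TW_thm (hS : Pool.RT.STPStmt) : TWStmt := by
  intro c s hs
  have hw := mem_wd c
  have h18 : ∀ x ∈ s, x ≤ 18 := by
    rw [← hs]
    exact mem_zip _ _ (fun a ha => (hw a ha).2) (fun a ha => (hw a (List.mem_reverse.1 ha)).2)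
  refine hS (wd c) (ad 0 s ++ [co 0 s]) _ _ _ _ _ _ _ _ _ hw ?_ ?_ rfl rfl rfl rfl rfl rfl rfl
    rfl rfl
  · intro x hx
    rcases List.mem_append.1 hx with h | h
    · exact mem_ad s 0 x h
    · rw [List.mem_singleton] at h
      have h1 := co_le s 0 (by norm_num) h18
      omega
  · rw [ofDigits_ad, zero_add, ← hs]
    exact (ofDigits_zip _ _ List.length_reverse.symm).symm

end Pool.RCC
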